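import Pool.Agent.Q189.IB.Stm2

/-!
# Incomplete beta integrals: the job INT
-/

set_option autoImplicit false

open Filter Topology

namespace Pool.Agent.Q129.IBInt

open Pool.Agent.Q189.IB

/-- real coefficients -/
noncomputable def c (u v : ℚ) (m : ℕ) : ℝ := ((cf u v m : ℚ) : ℝ)

theorem c_zero {u : ℚ} (v : ℚ) (hu : 0 < u) : (u : ℝ) * c u v 0 = 1 := by
  have h : u * cf u v 0 = 1 := by
    unfold cf
    simp
    field_simp
  unfold c
  exact_mod_cast h

theorem c_succ {u : ℚ} (v : ℚ) (hu : 0 < u) (m : ℕ) :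
    ((m : ℝ) + 1 + u) * c u v (m + 1) = ((m : ℝ) + u + v) * c u v m := by
  have hp : ∀ k : ℕ, 0 < ∏ i ∈ Finset.range k, (u + (i : ℚ)) := fun k =>
    Finset.prod_pos fun i _ => by positivity
  have h : ((m : ℚ) + 1 + u) * cf u v (m + 1) = ((m : ℚ) + u + v) * cf u v m := by
    unfold cf
    rw [Finset.prod_range_succ _ m, Finset.prod_range_succ _ (m + 1)]
    have h1 := (hp (m + 1)).ne'
    have h2 : (u + ((m + 1 : ℕ) : ℚ)) ≠ 0 := by positivity
    field_simp
    push_cast
    ring
  unfold c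
  exact_mod_cast h

theorem c_succ' {u : ℚ} (v : ℚ) (hu : 0 < u) (m : ℕ) :
    c u v (m + 1) = (1 + ((v : ℝ) - 1) / ((m : ℝ) + (1 + u))) * c u v m := by
  have hu' : (0 : ℝ) < u := by exact_mod_cast hu
  have h := c_succ v hu m
  have h2 : (m : ℝ) + (1 + u) ≠ 0 := by positivity
  field_simp
  linarith

theorem tends0 (w b : ℝ) : Tendsto (fun m : ℕ => w / ((m : ℝ) + b)) atTop (𝓝 0) := by
  refine tendsto_const_nhds.div_atTop ?_
  exact tendsto_atTop_add_const_right _ _ tendsto_natCast_atTop_atTop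

/-- ratio test -/
theorem summ_of {a q : ℕ → ℝ} {r : ℝ} (hr : |r| < 1) (hq : Tendsto q atTop (𝓝 r))
    (h : ∀ m, a (m + 1) = q m * a m) : Summable a := by
  obtain ⟨ρ, h1, h2⟩ := exists_between hr
  refine summable_of_ratio_norm_eventually_le h2 ?_
  have h3 : Tendsto (fun m => |q m|) atTop (𝓝 |r|) := hq.abs
  filter_upwards [h3.eventually_lt_const h1] with m hm
  rw [h m, norm_mul]
  exact mul_le_mul_of_nonneg_right (by simpa using hm.le) (norm_nonneg _)

theorem summ0 {u : ℚ} (v : ℚ) (hu : 0 < u) {x : ℝ} (hx : |x| < 1) :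
    Summable fun m => c u v m * x ^ m := by
  refine summ_of (q := fun m : ℕ => (1 + ((v : ℝ) - 1) / ((m : ℝ) + (1 + u))) * x) (r := x) hx ?_ ?_
  · have h := ((tends0 ((v : ℝ) - 1) (1 + u)).const_add 1).mul_const x
    simpa using h
  · intro m
    rw [c_succ' v hu m, pow_succ]
    ring

theorem summ1 {u : ℚ} (v : ℚ) (hu : 0 < u) {x : ℝ} (hx : |x| < 1) :
    Summable fun m : ℕ => c u v m * (m * x ^ m) := by
  rw [← summable_nat_add_iff 1]
  refine summ_of (q := fun m : ℕ => (1 + 1 / ((m : ℝ) + 1)) *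
    ((1 + ((v : ℝ) - 1) / ((m : ℝ) + (2 + u))) * x)) (r := x) hx ?_ ?_
  · have h := ((tends0 1 1).const_add 1).mul (((tends0 ((v : ℝ) - 1) (2 + u)).const_add 1).mul_const x)
    simpa using h
  · intro m
    rw [c_succ' v hu (m + 1)]
    have h2 : (m : ℝ) + 1 ≠ 0 := by positivity
    have h3 : ((m + 1 : ℕ) : ℝ) + (1 + u) = (m : ℝ) + (2 + u) := by push_cast; ring
    rw [h3]
    push_cast
    field_simp
    ring

theorem summ1' {u : ℚ} (v : ℚ) (hu : 0 < u) {x : ℝ} (hx : |x| < 1) :
    Summable fun m : ℕ => c u v m * (m * x ^ (m - 1)) := by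
  rcases eq_or_ne x 0 with h0 | h0
  · subst h0
    refine summable_of_ne_finset_zero (s := {1}) ?_
    intro m hm
    rcases m with _ | m
    · simp
    · rcases m with _ | m
      · simp at hm
      · simp
  · have h := (summ1 v hu hx).mul_right x⁻¹
    refine h.congr fun m => ?_
    rcases m with _ | m
    · simp
    · rw [Nat.add_sub_cancel, pow_succ]
      field_simp

/-- the sum -/
noncomputable def S (u v : ℚ) (x : ℝ) : ℝ := ∑' m, c u v m * x ^ m

/-- the derivative -/
noncomputable def D (u v : ℚ) (x : ℝ) : ℝ := ∑' m : ℕ, c u v m * (m * x ^ (m - 1))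

theorem hasDeriv {u : ℚ} (v : ℚ) (hu : 0 < u) {x : ℝ} (hx : |x| < 1) :
    HasDerivAt (S u v) (D u v x) x := by
  obtain ⟨r, h1, h2⟩ := exists_between hx
  have hr : 0 < r := (abs_nonneg x).trans_lt h1
  have hs := (summ1' v hu (x := r) (by rwa [abs_of_pos hr])).norm
  refine hasDerivAt_tsum_of_isPreconnected (t := Metric.ball (0 : ℝ) r) (y₀ := 0)
    (g := fun (m : ℕ) (y : ℝ) => c u v m * y ^ m)
    (g' := fun (m : ℕ) (y : ℝ) => c u v m * (m * y ^ (m - 1))) hs
    Metric.isOpen_ball (convex_ball (0 : ℝ) r).isPreconnected ?_ ?_ (Metric.mem_ball_self hr) ?_ ?_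
  · intro n y _
    exact (hasDerivAt_pow n y).const_mul _
  · intro n y hy
    rw [mem_ball_zero_iff] at hy
    simp only [norm_mul, norm_pow]
    have : ‖r‖ = r := by rw [Real.norm_eq_abs, abs_of_pos hr]
    rw [this]
    gcongr
  · exact summ0 v hu (by simp)
  · rw [mem_ball_zero_iff]
    exact h1

theorem ode {u : ℚ} (v : ℚ) (hu : 0 < u) {x : ℝ} (hx : |x| < 1) :
    x * (1 - x) * D u v x = 1 + (-(u : ℝ) + ((u : ℝ) + v) * x) * S u v x := by
  have hE : x * D u v x = ∑' m : ℕ, c u v m * (m * x ^ m) := by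
    unfold D
    rw [← tsum_mul_left]
    refine tsum_congr fun m => ?_
    rcases m with _ | m
    · simp
    · rw [Nat.add_sub_cancel, pow_succ]
      ring
  have h0 := summ0 v hu hx
  have h1 := summ1 v hu hx
  have key : (∑' m : ℕ, c u v m * (m * x ^ m)) + u * S u v x =
      1 + x * ((∑' m : ℕ, c u v m * (m * x ^ m)) + ((u : ℝ) + v) * S u v x) := by
    unfold S
    have hL : (∑' m : ℕ, c u v m * (m * x ^ m)) + u * ∑' m, c u v m * x ^ m =
        ∑' m : ℕ, (c u v m * (m * x ^ m) + u * (c u v m * x ^ m)) := by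
      rw [h1.tsum_add (h0.mul_left _), tsum_mul_left]
    have hR : x * ((∑' m : ℕ, c u v m * (m * x ^ m)) + ((u : ℝ) + v) * ∑' m, c u v m * x ^ m) =
        ∑' m : ℕ, x * (c u v m * (m * x ^ m) + ((u : ℝ) + v) * (c u v m * x ^ m)) := by
      rw [tsum_mul_left, h1.tsum_add (h0.mul_left _), tsum_mul_left]
    rw [hL, hR, (h1.add (h0.mul_left _)).tsum_eq_zero_add]
    have h2 := c_zero v hu
    simp only [Nat.cast_zero, mul_zero, pow_zero, mul_one, zero_add]
    rw [h2]
    congr 1
    refine tsum_congr fun m => ?_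
    have h3 := c_succ v hu m
    push_cast
    rw [pow_succ]
    linear_combination (x ^ m * x) * h3
  have : x * (1 - x) * D u v x = (1 - x) * (x * D u v x) := by ring
  rw [this, hE]
  linear_combination key

theorem int : S_INT := by
  intro u v x hu hx0 hx1
  have hu' : (0 : ℝ) < u := by exact_mod_cast hu
  refine ⟨summ0 v hu (by rw [abs_of_pos hx0]; exact hx1), ?_⟩
  have hF := intervalIntegral.integral_eq_sub_of_hasDerivAt_of_le (a := 0) (b := x) hx0.le
    (f := fun t => t ^ (u : ℝ) * (1 - t) ^ (v : ℝ) * S u v t)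
    (f' := fun t => t ^ ((u : ℝ) - 1) * (1 - t) ^ ((v : ℝ) - 1)) ?_ ?_ ?_
  · unfold inc
    rw [hF, Real.zero_rpow hu'.ne']
    simp only [zero_mul, sub_zero]
    rfl
  · refine ContinuousOn.mul (ContinuousOn.mul ?_ ?_) ?_
    · exact (Real.continuous_rpow_const hu'.le).continuousOn
    · refine ContinuousOn.rpow_const (by fun_prop) ?_
      intro t ht
      left
      have := ht.2
      linarith
    · intro t ht
      exact (hasDeriv v hu (by rw [abs_of_nonneg ht.1]; linarith [ht.2])).continuousAt.continuousWithinAt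
  · intro t ht
    have ht1 : |t| < 1 := by rw [abs_of_pos ht.1]; linarith [ht.2]
    have ht2 : (0 : ℝ) < 1 - t := by linarith [ht.2]
    have hd1 := Real.hasDerivAt_rpow_const (x := t) (p := (u : ℝ)) (Or.inl ht.1.ne')
    have hd2 : HasDerivAt (fun y : ℝ => (1 - y) ^ (v : ℝ)) (-1 * v * (1 - t) ^ ((v : ℝ) - 1)) t := by
      have h := ((hasDerivAt_id t).const_sub 1).rpow_const (p := (v : ℝ)) (Or.inl (by simpa using ht2.ne'))
      simpa using h
    have hd := (hd1.mul hd2).mul (hasDeriv v hu ht1)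
    refine hd.congr_deriv ?_
    have ho := ode v hu ht1
    have e1 : t ^ (u : ℝ) = t ^ ((u : ℝ) - 1) * t := by
      rw [← Real.rpow_add_one ht.1.ne']
      congr 1
      ring
    have e2 : (1 - t) ^ (v : ℝ) = (1 - t) ^ ((v : ℝ) - 1) * (1 - t) := by
      rw [← Real.rpow_add_one ht2.ne']
      congr 1
      ring
    simp only [Pi.mul_apply]
    rw [e1, e2]
    linear_combination (t ^ ((u : ℝ) - 1) * (1 - t) ^ ((v : ℝ) - 1)) * ho
  · refine IntervalIntegrable.mul_continuousOn ?_ ?_
    · exact intervalIntegral.intervalIntegrable_rpow' (by linarith)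
    · refine ContinuousOn.rpow_const (by fun_prop) ?_
      intro t ht
      rw [Set.uIcc_of_le hx0.le] at ht
      left
      have := ht.2
      linarith

end Pool.Agent.Q129.IBInt
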